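import Pool.Agent.MP_fed7c7_lc.S6.Spec

set_option autoImplicit false

/-!
The linking unknown is a free residue modulo the odd part of the Pell number.
-/

namespace Pool.Agent.MP_fed7c7_lc.S5

open Pool.Agent.MP_fed7c7_lc.H56 Pool.Agent.MP_fed7c7_lc.H21 Pool.Agent.MP_fed7c7_lc.H93
  Pool.Agent.MP_fed7c7_lc.H34

theorem mod3 {G h M p e : ℤ} (h1 : ps G h = M * p) (h2 : ch G h = 1 + M ^ 2 * e) (r : ℕ) :
    ∃ a b, ps G (h * r) = r * (M * p) + M ^ 3 * a ∧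
      ch G (h * r) = 1 + r ^ 2 * (M ^ 2 * e) + M ^ 3 * b := by
  induction r with
  | zero => exact ⟨0, 0, by simp [ps_zero], by simp [H56.ch_zero]⟩
  | succ r ih =>
    obtain ⟨a, b, ha, hb⟩ := ih
    have q := pell G h
    rw [h1, h2] at q
    refine ⟨r * p * e + a * (1 + M ^ 2 * e) + r ^ 2 * e * p + M * b * p,
      r ^ 2 * M * e ^ 2 + b * (1 + M ^ 2 * e) + r * M * e ^ 2 + (G ^ 2 - 1) * M * a * p, ?_, ?_⟩
    · rw [Nat.cast_succ, mul_add, mul_one, ps_add, ha, hb, h1, h2]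
      ring
    · rw [Nat.cast_succ, mul_add, mul_one, ch_add, ha, hb, h1, h2]
      linear_combination (-(r : ℤ)) * q

theorem free {G n X M e₁ A y₀ : ℤ} (M0 : 0 < M) (hx : M ^ 2 ∣ ch G n - M) (hX : X ∣ n)
    (he : e₁ ∣ M) (o : Odd e₁) (h3 : ¬3 ∣ e₁) (hy : ch G X = A + M ^ 2 * y₀) :
    ∃ k y, X ∣ k ∧ ch G k = A + M ^ 2 * y ∧ e₁ ∣ 3 * y + 1 := by
  obtain ⟨c, hc⟩ := hx
  have q := pell G n
  obtain ⟨x, ex⟩ : ∃ x, x = 1 + M * c := ⟨_, rfl⟩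
  have hx : ch G n = M * x := by rw [ex]; linear_combination hc
  have dw : ps G X ∣ ps G n := by
    obtain ⟨j, rfl⟩ := hX
    exact ps_dvd_mul G X j
  have a1 : ps G (n + n + (n + n)) = M * (4 * x * ps G n * (2 * (M * x) ^ 2 - 1)) := by
    rw [ps_add, ps_add, ch_add, hx]
    rw [hx] at q
    linear_combination (-4 * M * x * ps G n) * q
  have a2 : ch G (n + n + (n + n)) = 1 + M ^ 2 * (8 * M ^ 2 * x ^ 4 - 8 * x ^ 2) := by
    rw [ch_add, ps_add, ch_add, hx]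
    rw [hx] at q
    linear_combination (-(7 * (M * x) ^ 2 - 1 + (G ^ 2 - 1) * ps G n ^ 2)) * q
  rw [hx] at q
  generalize ps G n = w at *
  have c1 : IsCoprime M ((G ^ 2 - 1) * w * w) := ⟨M * x ^ 2, -1, by linear_combination q⟩
  have c2 : IsCoprime M x := ⟨-c, 1, by rw [ex]; ring⟩
  have c3 : IsCoprime M (2 * (M * x) ^ 2 - 1) := ⟨2 * M * x ^ 2, -1, by ring⟩
  have c4 : IsCoprime e₁ (2 ^ 2) := by
    obtain ⟨f, hf⟩ := o
    exact IsCoprime.pow_right ⟨1, -f, by linarith⟩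
  have c5 : IsCoprime e₁ 3 := (Int.prime_three.irreducible.coprime_iff_not_dvd.2 h3).symm
  have up : ∀ {u : ℤ}, IsCoprime M u → IsCoprime e₁ u := fun h => h.of_isCoprime_of_dvd_left he
  obtain ⟨u, v, huv⟩ : IsCoprime e₁
      (3 * ((G ^ 2 - 1) * ps G X * (2 ^ 2 * x * w * (2 * (M * x) ^ 2 - 1)))) :=
    c5.mul_right (((up c1.of_mul_right_left.of_mul_right_left).mul_right
      (up (c1.of_mul_right_right.of_isCoprime_of_dvd_right dw))).mul_right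
      (((c4.mul_right (up c2)).mul_right (up c1.of_mul_right_right)).mul_right (up c3)))
  have e0 : e₁ ≠ 0 := by rintro rfl; exact h3 (dvd_zero _)
  obtain ⟨t, t0, j, ht⟩ : ∃ t, 0 ≤ t ∧ ∃ j, t = -(v * (3 * y₀ + 1)) - e₁ * j :=
    ⟨_, Int.emod_nonneg (-(v * (3 * y₀ + 1))) e0, _, Int.emod_def _ _⟩
  obtain ⟨r, hr⟩ := Int.eq_ofNat_of_zero_le (mul_nonneg M0.le t0)
  obtain ⟨a, b, ha, hb⟩ := mod3 a1 a2 r
  rw [← hr] at ha hb
  generalize 8 * M ^ 2 * x ^ 4 - 8 * x ^ 2 = e at *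
  refine ⟨X + (n + n + (n + n)) * (M * t), y₀ + t * ((G ^ 2 - 1) * ps G X *
    (2 ^ 2 * x * w * (2 * (M * x) ^ 2 - 1))) +
      M * (ch G X * (M * t ^ 2 * e + b) + (G ^ 2 - 1) * ps G X * a),
    (dvd_refl X).add (((hX.add hX).add (hX.add hX)).mul_right _), ?_, ?_⟩
  · rw [ch_add, ha, hb]
    linear_combination hy
  · generalize (G ^ 2 - 1) * ps G X * (2 ^ 2 * x * w * (2 * (M * x) ^ 2 - 1)) = κ at *
    refine dv (((he.mul_right (3 * (ch G X * (M * t ^ 2 * e + b) +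
      (G ^ 2 - 1) * ps G X * a))).add (dvd_mul_right e₁ (u * (3 * y₀ + 1) - 3 * κ * j)))) ?_
    linear_combination (-(3 * y₀ + 1)) * huv + 3 * κ * ht

/-- Two squares, two divisibilities and an inequality as one equation. -/
def E2 (P₁ P D R G S T y z : ℤ) : ℤ :=
  cb P₁ (4 * P * ((G ^ 2 - 1) * (S ^ 2 - 1))) ((G ^ 2 - 1) * D ^ 2 * P ^ 15)
    ((S ^ 2 - 1) * P ^ 15 + (G ^ 2 - 1) * D ^ 2 * (T * (3 * (3 * y ^ 2 + 2 * y) + 1) ^ 15)) R z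

theorem e2_sound {P₁ P D R G S T y z : ℤ} (eG : Even G) (oD : Odd D) (oP : Odd P)
    (cD : IsCoprime P D) (cG : IsCoprime P (G ^ 2 - 1)) (z0 : 0 ≤ z)
    (h : E2 P₁ P D R G S T y z = 0) : IsSquare P₁ ∧
    (2 ≤ G → 0 < P → IsCoprime (4 * P) (S ^ 2 - 1) → 0 < R ∧ IsSquare (4 * P) ∧
      (∃ S₀ w, 4 * P ∣ S₀ - S ∧ S₀ ^ 2 - 1 = (G ^ 2 - 1) * D ^ 2 * w ^ 2) ∧
      P ^ 15 ∣ T * (3 * (3 * y ^ 2 + 2 * y) + 1) ^ 15) := by
  have G0 : G ^ 2 - 1 ≠ 0 := fun z => by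
    rcases sq_eq_one_iff.1 (sub_eq_zero.1 z) with e | e <;> exact absurd (e ▸ eG) (by decide)
  have D0 : D ≠ 0 := by rintro rfl; exact absurd oD (by decide)
  have P0' : P ≠ 0 := by rintro rfl; exact absurd oP (by decide)
  obtain ⟨s1, s2, h1, hR⟩ := cb_sound
    (mul_ne_zero (mul_ne_zero G0 (pow_ne_zero 2 D0)) (pow_ne_zero _ P0')) z0 h
  have cq : IsCoprime ((G ^ 2 - 1) * D ^ 2) (P ^ 15) :=
    IsCoprime.pow_right (IsCoprime.mul_left cG.symm cD.symm.pow_left)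
  obtain ⟨w, hw⟩ : (G ^ 2 - 1) * D ^ 2 ∣ S ^ 2 - 1 := cq.dvd_of_dvd_mul_right
    ((dvd_add_left (dvd_mul_right _ _)).1 ((dvd_mul_right _ _).trans h1))
  have d3 := cq.symm.dvd_of_dvd_mul_left
    ((dvd_add_right (dvd_mul_left _ _)).1 ((dvd_mul_left _ _).trans h1))
  refine ⟨s1, fun _ P0 cP => ?_⟩
  have P4 : 0 < 4 * P := by omega
  generalize 4 * P = Q at *
  obtain ⟨e, he⟩ := s2
  have s3 : IsSquare (Q * w) := isSquare_of_mul (b := (G ^ 2 - 1) * D) (c := e)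
    (mul_ne_zero G0 D0) (by rw [sq e, ← he, hw]; ring)
  obtain ⟨b, hb⟩ := sq_or (cP.of_isCoprime_of_dvd_right (hw ▸ dvd_mul_left _ _)) s3 P4
  obtain ⟨t, ht⟩ := s3
  obtain ⟨u, rfl⟩ : IsSquare w := isSquare_of_mul (b := b) (c := t)
    (by rintro rfl; simp at hb; omega) (by rw [hb, ht, sq])
  exact ⟨hR, ⟨b, by rw [← hb, sq]⟩, ⟨S, u, by simp, by rw [hw]; ring⟩, d3⟩

theorem e2_complete {P₁ P D R G T X n M A e : ℤ} {V : ℕ} (oP : Odd P) (hR : 0 < R)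
    (hP : P = 3 ^ V * e) (h3 : ¬3 ∣ e) (hT : 3 ^ (15 * V) ∣ T) (s1 : IsSquare P₁) (M0 : 0 < M)
    (hM : 4 * P = M ^ 2) (hn : M ^ 2 ∣ ch G n - M) (hX : X ∣ n) (hD : D ∣ ps G X)
    (hA : 4 * P ∣ ch G X - A) : ∃ y z, 0 ≤ z ∧ E2 P₁ P D R G (A + 4 * P * y) T y z = 0 := by
  obtain ⟨M₁, hM₁⟩ : 2 ∣ M := Int.prime_two.dvd_of_dvd_pow (n := 2) ⟨2 * P, by linarith⟩
  have eP : P = M₁ ^ 2 := by rw [hM₁] at hM; linarith
  obtain ⟨U, e₁, n3, he₁⟩ := WfDvdMonoid.max_power_factor (a₀ := M₁) (by rintro rfl; omega)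
    Int.prime_three.irreducible
  have d1 : e₁ ∣ M₁ := ⟨3 ^ U, by rw [he₁]; ring⟩
  have o1 : Odd e₁ := by
    obtain ⟨j, hj⟩ : e₁ ∣ P := d1.trans (eP ▸ dvd_pow_self _ two_ne_zero)
    exact (Int.odd_mul.1 (hj ▸ oP)).1
  obtain ⟨y₀, hy⟩ := hA
  obtain ⟨k, y, k1, k2, k3⟩ := free (A := A) (y₀ := y₀) M0 hn hX (d1.trans ⟨2, by linarith⟩) o1 n3
    (by rw [← hM]; linarith)
  have c3 : IsCoprime e 3 := (Int.prime_three.irreducible.coprime_iff_not_dvd.2 h3).symm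
  have d2 : e ∣ e₁ ^ 2 := (c3.pow_right (n := 2 * U)).dvd_of_dvd_mul_left
    ⟨3 ^ V, by rw [mul_comm e, ← hP, eP, he₁]; ring⟩
  have d3 : e ∣ 3 * (3 * y ^ 2 + 2 * y) + 1 :=
    dv (d2.trans (pow_dvd_pow_of_dvd k3 2)) (by ring)
  obtain ⟨w, hw⟩ : D ∣ ps G k := by
    obtain ⟨j, rfl⟩ := k1
    exact hD.trans (ps_dvd_mul G X j)
  have q := pell G k
  rw [k2, hw, ← hM] at q
  refine ⟨y, cb_complete s1 ⟨M * (G ^ 2 - 1) * (D * w), ?_⟩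
    ((mul_dvd_mul_right ⟨w ^ 2, by linear_combination q⟩ _).add (mul_dvd_mul_left _ ?_)) hR⟩
  · linear_combination (4 * P * (G ^ 2 - 1)) * q + ((G ^ 2 - 1) * (D * w)) ^ 2 * hM
  · rw [hP, mul_pow, ← pow_mul, mul_comm V]
    exact mul_dvd_mul hT (pow_dvd_pow_of_dvd d3 15)

end Pool.Agent.MP_fed7c7_lc.S5
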