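import Pool.Agent.MP_fed7c7_lc.S6.H33Core
import Pool.Agent.MP_fed7c7_lc.S5.Lk

set_option autoImplicit false

/-!
The equation in four integer unknowns and one nonnegative unknown.
-/

namespace Pool.Agent.MP_fed7c7_lc.S5

open PowerSeries Pool.Agent.MP_fed7c7_lc.H56 Pool.Agent.MP_fed7c7_lc.H21
  Pool.Agent.MP_fed7c7_lc.H93
open Pool.Agent.MP_fed7c7_lc.S6 hiding E2
open Pool.Agent.MP_fed7c7_lc.S6.H33 hiding F3 F2 F1 F0 FF pf_FF sound complete sCORE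

/-- The equation in five unknowns, the last one nonnegative. -/
def SCORE5 : Prop := ∀ (c : ℤ⟦X⟧) (ν f : ℕ), Nice c → 2 ≤ ν → ∃ (E : ℤ → (Fin 5 → ℤ) → ℤ) (N : ℕ),
  (PF fun v : Fin (5 + 2) → ℤ => E (v 0) fun i => v i.succ.succ) ∧ ∀ β : ℕ, Odd β →
    (∀ x, 0 ≤ x 4 → E β x = 0 → ∃ (μ : ℤ) (n : ℕ), (2 * n : ℤ) = qm β (3 ^ ν) μ ∧
      (3 : ℤ) ^ (f + 3 * padicValNat 3 (2 * n - 1) + 1) ∣ coeff (2 * n + 1) c) ∧
    ∀ μ n : ℕ, N ≤ n → (2 * n : ℤ) = qm β (3 ^ ν) μ →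
      (3 : ℤ) ^ (f + 3 * padicValNat 3 (2 * n - 1) + 1) ∣ coeff (2 * n + 1) c →
        ∃ x, 0 ≤ x 4 ∧ E β x = 0

noncomputable def F3 (p : MvPolynomial (Fin 4) ℤ) (φ κ a A A3 Q P D P₁ l y z : ℤ) : ℤ :=
  E2 P₁ P D (MvPolynomial.eval ![A, D, l, κ] p) (gL a A D) (sL A D y) (T0 A A3 Q (pl A D) φ) y z

noncomputable def F2 (p : MvPolynomial (Fin 4) ℤ) (φ κ a A A1 A3 Q D1 P₁ l y z : ℤ) : ℤ :=
  F3 p φ κ a A A3 Q (A1 ^ 2 * (2 * D1 + 1) ^ 2 - D1 ^ 2 - D1) (2 * D1 + 1) P₁ l y z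

noncomputable def F1 (p : MvPolynomial (Fin 4) ℤ) (φ κ b u Q P₁ g l y z : ℤ) : ℤ :=
  F2 p φ κ (6 * b) (6 * b * u) (3 * b * u) (2 * b * u) Q
    (Q * (3 * b * u) + 3 * b * u - 1 + (6 * b * u - 1) * g) P₁ l y z

noncomputable def F0 (p : MvPolynomial (Fin 4) ℤ) (φ κ b Q v g l y z : ℤ) : ℤ :=
  F1 p φ κ b (1 + ((6 * b) ^ 2 - 1) * (2 * v)) Q (qQ (6 * b) (2 * v)) g l y z

noncomputable def FF (p : MvPolynomial (Fin 4) ℤ) (φ K w β v g l y z : ℤ) : ℤ :=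
  F0 p φ (100 * β * w ^ 2) (2 * K * (100 * β * w ^ 2) + 1) (qm β w l + 1) v g l y z

theorem pf_FF {σ : Type} (p : MvPolynomial (Fin 4) ℤ) (φ K w : ℤ)
    {β v g l y z : (σ → ℤ) → ℤ} (hβ : PF β) (hv : PF v) (hg : PF g)
    (hl : PF l) (hy : PF y) (hz : PF z) :
    PF fun x => FF p φ K w (β x) (v x) (g x) (l x) (y x) (z x) := by
  have h2 : ∀ {P₁ P D R G S T : (σ → ℤ) → ℤ}, PF P₁ → PF P → PF D → PF R → PF G →
      PF S → PF T → PF fun x => E2 (P₁ x) (P x) (D x) (R x) (G x) (S x) (T x) (y x) (z x) :=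
    fun a _ _ e _ _ _ => pf_cb a (by fun_prop) (by fun_prop) (by fun_prop) e hz
  have g3 : ∀ {κ a A A3 Q P D P₁ : (σ → ℤ) → ℤ}, PF κ → PF a → PF A → PF A3 → PF Q → PF P →
      PF D → PF P₁ → PF fun x => F3 p φ (κ x) (a x) (A x) (A3 x) (Q x) (P x) (D x) (P₁ x)
        (l x) (y x) (z x) :=
    fun k _ b _ _ c d e => h2 e c d (pf_eval4 p b d hl k) (by unfold gL pl; fun_prop)
      (by unfold sL pl; fun_prop) (by unfold T0 pl; fun_prop)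
  have g2 : ∀ {κ a A A1 A3 Q D P₁ : (σ → ℤ) → ℤ}, PF κ → PF a → PF A → PF A1 → PF A3 → PF Q →
      PF D → PF P₁ → PF fun x => F2 p φ (κ x) (a x) (A x) (A1 x) (A3 x) (Q x) (D x) (P₁ x)
        (l x) (y x) (z x) :=
    fun k a b _ c d _ e => g3 k a b c d (by fun_prop) (by fun_prop) e
  have g1 : ∀ {κ b u Q P₁ : (σ → ℤ) → ℤ}, PF κ → PF b → PF u → PF Q → PF P₁ →
      PF fun x => F1 p φ (κ x) (b x) (u x) (Q x) (P₁ x) (g x) (l x) (y x) (z x) :=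
    fun k _ _ d e => g2 k (by fun_prop) (by fun_prop) (by fun_prop) (by fun_prop) d
      (by fun_prop) e
  have g0 : ∀ {κ b Q : (σ → ℤ) → ℤ}, PF κ → PF b → PF Q →
      PF fun x => F0 p φ (κ x) (b x) (Q x) (v x) (g x) (l x) (y x) (z x) :=
    fun k b d => g1 k b (by fun_prop) d (by unfold qQ; fun_prop)
  exact g0 (by fun_prop) (by fun_prop) (by unfold qm; fun_prop)

theorem sound (hAD : SAD) {c : ℤ⟦X⟧} {p : MvPolynomial (Fin 4) ℤ} {N ν f : ℕ}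
    {β κ K b v g l y z : ℤ} (hp : Rd c p N K) (h : Par β κ K b ν) (z0 : 0 ≤ z)
    (hx : F0 p (3 ^ (f + ν + 1)) κ b (qm β (3 ^ ν) l + 1) v g l y z = 0) :
    ∃ (μ : ℤ) (n : ℕ), (2 * n : ℤ) = qm β (3 ^ ν) μ ∧
      (3 : ℤ) ^ (f + 3 * padicValNat 3 (2 * n - 1) + 1) ∣ coeff (2 * n + 1) c := by
  have big := h.big
  obtain ⟨hν, β1, oβ', hκ, κ1, κK, bK, -⟩ := h
  have ob : Odd b := ⟨_, bK⟩
  have bκ : 2 * κ + 1 ≤ b := by omega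
  clear κK bK
  have ow : Odd ((3 : ℤ) ^ ν) := Odd.pow (by decide)
  unfold F0 F1 F2 F3 at hx
  have eA : aA (6 * b) (2 * v) = 6 * b * (1 + ((6 * b) ^ 2 - 1) * (2 * v)) := rfl
  have o1 : Odd (1 + ((6 * b) ^ 2 - 1) * (2 * v)) := ⟨((6 * b) ^ 2 - 1) * v, by ring⟩
  have o2 : (6 * b) ^ 2 - 1 ∣ 1 + ((6 * b) ^ 2 - 1) * (2 * v) - 1 := ⟨2 * v, by ring⟩
  generalize 1 + ((6 * b) ^ 2 - 1) * (2 * v) = u at hx eA o1 o2
  obtain ⟨D1, hD⟩ : ∃ D1, D1 = (qm β (3 ^ ν) l + 1) * (3 * b * u) + 3 * b * u - 1 +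
    (6 * b * u - 1) * g := ⟨_, rfl⟩
  rw [← hD] at hx
  obtain ⟨e4, eG, oP, c1, c2⟩ := basic (D1 := D1) ob o1 o2
  obtain ⟨s1, s2⟩ := e2_sound eG ⟨D1, rfl⟩ oP c1 c2 z0 hx
  obtain ⟨j, j1, hj⟩ := aA_index (by omega) s1
  rw [eA] at hj
  have dD : 6 * b * u - 1 ∣ 2 * D1 + 1 - (qm β (3 ^ ν) l + 1) :=
    ⟨qm β (3 ^ ν) l + 2 + 2 * g, by rw [hD]; ring⟩
  have h3 : 6 * b * u = 3 * (2 * b * u) := by ring
  generalize (3 * b * u) ^ 2 * (2 * D1 + 1) ^ 2 - D1 ^ 2 - D1 = P at *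
  generalize 2 * b * u = A3 at *
  generalize 6 * b * u = A at *
  have oD : Odd (2 * D1 + 1) := ⟨D1, rfl⟩
  generalize 2 * D1 + 1 = D at *
  have A1 : (6 * b) ^ j ≤ A := hj ▸ pow_le_ch (by omega) j
  have A2 : 6 * b ≤ A := (le_self_pow₀ (by omega) (by omega)).trans A1
  have A6 := (six_le (a := 6 * b) (by omega) j1).trans A1
  have P0 := pl_pos (A := A) (by omega) D
  obtain ⟨R0, sq4, ⟨S, t, ⟨y', hy⟩, hS⟩, dT⟩ := s2 (G3 _ (by omega) A2) (by omega) (by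
    rw [e4, show sL A D y ^ 2 - 1 = A ^ 2 - 1 + pl A D * (y * (A + sL A D y)) by
      rw [sL]; ring]
    exact IsCoprime.add_mul_left_right ⟨1, -D ^ 2, by rw [pl]; ring⟩ _)
  rw [e4] at sq4 hy
  have eS : S = sL A D (y + y') := by rw [sL] at hy ⊢; linear_combination hy
  rw [eS] at hS
  obtain ⟨i, hi, ij⟩ := link (a := 6 * b) (C := D) (y := y + y') (j := j) (by omega) j1
    (by rintro rfl; exact absurd oD (by decide)) (hj ▸ sq4) (hj ▸ ⟨_, by rw [hS]⟩)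
    (hj ▸ ⟨(gL (6 * b) A D ^ 2 - 1) * D * t, by rw [hS]; ring⟩)
  rw [← hj] at hi
  have i0 : i ≠ 0 := by
    rintro rfl
    rw [ps_zero] at hi
    exact absurd (hi ▸ oD) (by decide)
  obtain ⟨L, l1, l2, -⟩ := hp A κ i κ1 i0 (hj ▸ big i j (by have := abs_le.1 ij; omega))
  have l3 := l2 l (hi ▸ R0)
  obtain ⟨μ, rfl⟩ : ∃ μ, l = (A - 1) * L + μ := ⟨l - (A - 1) * L, by ring⟩
  rw [add_sub_cancel_left] at l3
  have d1 : A - 1 ∣ qm β (3 ^ ν) ((A - 1) * L + μ) - qm β (3 ^ ν) μ :=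
    ⟨2 * 3 ^ ν * L * (2 + β * (3 ^ ν * (2 * ((A - 1) * L + μ) + 1) + 3 ^ ν * (2 * μ + 1))),
      by unfold qm; ring⟩
  have d2 : A - 1 ∣ qm β (3 ^ ν) μ + 1 - i :=
    de (((ps_index A i).sub dD).sub d1) (by rw [hi]; ring)
  obtain ⟨q0, q1⟩ := qm_bound (μ := μ) β1 (by positivity) hκ
  have ei : qm β (3 ^ ν) μ + 1 = i := by
    have := abs_le.1 ij
    exact sub_eq_zero.1 (Int.eq_zero_of_abs_lt_dvd d2 (abs_lt.2 ⟨by omega, by omega⟩))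
  have ev : Even (qm β (3 ^ ν) μ) := by
    unfold qm
    rw [add_right_comm]
    exact (odd_one.add_odd (oβ'.mul (ow.mul ⟨μ, rfl⟩).pow)).add (even_two_mul _)
  obtain ⟨m, hm⟩ := ev
  obtain ⟨n, rfl⟩ := Int.eq_ofNat_of_zero_le (show 0 ≤ m by omega)
  have hn : (2 * n : ℤ) = qm β (3 ^ ν) μ := by omega
  obtain rfl : i = 2 * n + 1 := by omega
  have l4 := l1 (by omega)
  rw [show (2 * n + 1 : ℤ).toNat = 2 * n + 1 by omega] at l4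
  obtain ⟨V, α, hα, hV⟩ := WfDvdMonoid.max_power_factor (show A ≠ 0 by omega)
    Int.prime_three.irreducible
  refine ⟨μ, n, hn, ((gad hAD (f := f) hν h3 hV hα l4 hn).1 ?_).2⟩
  rw [← hi]
  have d3 : A ^ 2 ∣ 4 * P := by
    obtain ⟨r, hr⟩ := hAD.1 A (2 * n + 1) ⟨n, rfl⟩
    exact ⟨(2 * n + 1) ^ 2 + A ^ 2 * r, by rw [e4, hi]; linear_combination hr⟩
  have d4 : (3 : ℤ) ^ (2 * V) ∣ P :=
    (IsCoprime.pow_left (⟨-1, 1, by norm_num⟩ : IsCoprime (3 : ℤ) 4)).dvd_of_dvd_mul_left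
      (Dvd.dvd.trans ⟨α ^ 2, by rw [hV]; ring⟩ d3)
  have d5 := (pow_dvd_pow_of_dvd d4 15).trans dT
  rw [← pow_mul, show 2 * V * 15 = 30 * V by ring] at d5
  generalize 3 * y ^ 2 + 2 * y = s at d5
  exact (IsCoprime.pow (⟨-s, 1, by ring⟩ : IsCoprime 3 (3 * s + 1))).dvd_of_dvd_mul_right d5

theorem complete (hAD : SAD) {c : ℤ⟦X⟧} {p : MvPolynomial (Fin 4) ℤ}
    {N ν f μ n : ℕ} {β κ K b : ℤ} (hp : Rd c p N K) (h : Par β κ K b ν) (hN : N ≤ n)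
    (hn : (2 * n : ℤ) = qm β (3 ^ ν) μ)
    (hd : (3 : ℤ) ^ (f + 3 * padicValNat 3 (2 * n - 1) + 1) ∣ coeff (2 * n + 1) c) :
    ∃ v g l y z, 0 ≤ z ∧ F0 p (3 ^ (f + ν + 1)) κ b (qm β (3 ^ ν) l + 1) v g l y z = 0 := by
  have big := h.big
  obtain ⟨hν, β1, oβ', -, κ1, κK, bK, b3⟩ := h
  have ob : Odd b := ⟨_, bK⟩
  have b1 : 1 ≤ b := by omega
  clear κK bK
  have m1 := qm_mod β μ hν
  obtain ⟨e, he⟩ : ∃ e, e = f + 3 * padicValNat 3 (2 * n - 1) + ν := ⟨_, rfl⟩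
  have oi : Odd (2 * n + 1 : ℤ) := ⟨n, rfl⟩
  have i3 : ¬(3 : ℤ) ∣ 2 * n + 1 := by omega
  obtain ⟨γ, hγ, γ3⟩ : ∃ γ, ch (6 * b) ((2 * n + 1) * 3 ^ e) = 3 ^ (e + 1) * γ ∧ ¬3 ∣ γ := by
    obtain ⟨u₀, h₀⟩ := aA_complete (6 * b) n
    have q₀ := quot hAD (a := 6 * b) (by omega) oi h₀.symm
    unfold aA at h₀
    generalize 1 + ((6 * b) ^ 2 - 1) * u₀ = r at q₀ h₀
    refine lte (α := 2 * b * r) (by rw [← h₀]; ring) (fun g => ?_) e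
    rcases Int.prime_three.dvd_or_dvd g with g | g
    · omega
    · exact i3 (Int.prime_three.dvd_of_dvd_pow (n := 2) (de ((dvd_pow g two_ne_zero).sub
        (Dvd.dvd.trans ⟨12 * b ^ 2, by ring⟩ q₀)) (by ring)))
  obtain ⟨n', hn'⟩ : Odd ((2 * n + 1) * 3 ^ e) := Odd.mul ⟨n, rfl⟩ (Odd.pow (by decide))
  have ej : (2 * n + 1 : ℤ) * 3 ^ e = 2 * n' + 1 := by exact_mod_cast hn'
  have nn : n ≤ n' := by
    have : (2 * n + 1) * 1 ≤ (2 * n + 1) * 3 ^ e :=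
      Nat.mul_le_mul_left _ (Nat.one_le_pow _ _ (by norm_num))
    omega
  have oj : Odd (2 * n' + 1 : ℤ) := ⟨n', rfl⟩
  have j3 : (3 : ℤ) ∣ 2 * n' + 1 := ej ▸ (dvd_pow_self 3 (by omega)).mul_left _
  rw [ej] at hγ
  obtain ⟨v, hv⟩ : ∃ v, aA (6 * b) (2 * v) = ch (6 * b) (2 * n' + 1) := by
    obtain ⟨u₀, h₀⟩ := aA_complete (6 * b) n'
    obtain ⟨t, ht⟩ := quot hAD (a := 6 * b) (by omega) oj h₀.symm
    rcases Int.even_or_odd' u₀ with ⟨v, rfl | rfl⟩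
    · exact ⟨v, h₀⟩
    · have : 2 * (2 * (((6 * b) ^ 2 - 1) * v + 18 * b ^ 2) ^ 2 - 2 * n' ^ 2 - 2 * n' -
          18 * b ^ 2 * t) = 1 := by linear_combination ht
      omega
  have s1 : IsSquare (qQ (6 * b) (2 * v)) := by
    refine ⟨ps (6 * b) (2 * n' + 1), mul_left_cancel₀ (a := (6 * b) ^ 2 - 1) (by nlinarith) ?_⟩
    rw [← aA_sq, hv, pell]; ring
  have bg := big (2 * n + 1) (2 * n' + 1) (by omega)
  have A2 : 6 * b ≤ ch (6 * b) (2 * n' + 1 : ℕ) :=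
    (le_self_pow₀ (by omega) (by omega)).trans (pow_le_ch (by omega) _)
  push_cast at bg A2
  unfold F0 F1 F2 F3
  have o1 : Odd (1 + ((6 * b) ^ 2 - 1) * (2 * v)) := ⟨((6 * b) ^ 2 - 1) * v, by ring⟩
  have o2 : (6 * b) ^ 2 - 1 ∣ 1 + ((6 * b) ^ 2 - 1) * (2 * v) - 1 := ⟨2 * v, by ring⟩
  refine ⟨v, ?_⟩
  unfold aA at hv
  generalize 1 + ((6 * b) ^ 2 - 1) * (2 * v) = u at hv o1 o2 ⊢
  rw [← hv] at bg A2 hγ
  obtain ⟨L, l1, -, l3⟩ := hp (6 * b * u) κ (2 * n + 1) κ1 (by omega) bg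
  have l4 := l1 (by omega)
  rw [show (2 * n + 1 : ℤ).toNat = 2 * n + 1 by omega] at l4
  have μi : |(μ : ℤ)| ≤ 2 * n + 1 := by
    have w1 : (1 : ℤ) ≤ 3 ^ ν := one_le_pow₀ (by norm_num)
    have μ0 : (0 : ℤ) ≤ μ := Int.natCast_nonneg μ
    rw [abs_of_nonneg μ0, hn, qm]
    have := mul_nonneg (show 0 ≤ β by omega) (sq_nonneg (3 ^ ν * (2 * (μ : ℤ) + 1)))
    nlinarith
  have R0 := l3 (by omega) μ μi
  have dT := (gad hAD (f := f) hν (show 6 * b * u = 3 * (2 * b * u) by ring) hγ γ3 l4 hn).2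
    ⟨by rw [he], hd⟩
  have d1 : 6 * b * u - 1 ∣ qm β (3 ^ ν) ((6 * b * u - 1) * L + μ) - qm β (3 ^ ν) μ :=
    ⟨2 * 3 ^ ν * L * (2 + β * (3 ^ ν * (2 * ((6 * b * u - 1) * L + μ) + 1) +
      3 ^ ν * (2 * μ + 1))), by unfold qm; ring⟩
  rw [← hn] at d1
  generalize (6 * b * u - 1) * L + μ = l at *
  obtain ⟨D1, hD⟩ := H34.ps_odd (6 * b * u) oi
  obtain ⟨g, hg⟩ : ∃ g, D1 = (qm β (3 ^ ν) l + 1) * (3 * b * u) + 3 * b * u - 1 +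
      (6 * b * u - 1) * g := by
    obtain ⟨r, hr⟩ := (ps_index (6 * b * u) (2 * n + 1)).sub d1
    rw [hD] at hr
    generalize qm β (3 ^ ν) l = q at *
    obtain ⟨g, hg⟩ : 2 ∣ r - q := ⟨3 * b * u * r - D1, by linear_combination hr⟩
    refine ⟨g - 1, mul_left_cancel₀ two_ne_zero ?_⟩
    linear_combination hr + (6 * b * u - 1) * hg
  refine ⟨g, l, ?_⟩
  rw [← hg]
  obtain ⟨e4, eG, oP, -, -⟩ := basic (D1 := D1) ob o1 o2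
  obtain ⟨r, hr⟩ := hAD.1 (6 * b * u) (2 * n + 1) oi
  have sq4 : pl (6 * b * u) (ps (6 * b * u) (2 * n + 1)) = ch (6 * b * u) (2 * n + 1) ^ 2 := by
    rw [pl, ← pell]
  have dD := ps_dvd_mul (6 * b * u) (2 * n + 1) (3 ^ e)
  rw [ej] at dD
  rw [hD] at R0 dT hr sq4 dD
  generalize (3 * b * u) ^ 2 * (2 * D1 + 1) ^ 2 - D1 ^ 2 - D1 = P at *
  have oD : Odd (2 * D1 + 1) := ⟨D1, rfl⟩
  generalize 2 * D1 + 1 = D at *
  generalize 2 * b * u = A3 at *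
  generalize 6 * b * u = A at *
  have P0 := pl_pos (A := A) (by omega) D
  have e5 : 4 * P = 3 ^ (2 * (e + 1)) * (γ ^ 2 * ((2 * n + 1) ^ 2 + A ^ 2 * r)) := by
    have : (3 : ℤ) ^ (2 * (e + 1)) * γ ^ 2 = A ^ 2 := by rw [hγ]; ring
    linear_combination e4 + hr - ((2 * n + 1) ^ 2 + A ^ 2 * r) * this
  obtain ⟨w, hw⟩ : (3 : ℤ) ^ (2 * (e + 1)) ∣ P :=
    (IsCoprime.pow_left (⟨-1, 1, by norm_num⟩ : IsCoprime (3 : ℤ) 4)).dvd_of_dvd_mul_left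
      ⟨_, e5⟩
  have w3 : ¬3 ∣ w := fun g => by
    have e6 : γ ^ 2 * ((2 * n + 1) ^ 2 + A ^ 2 * r) = 4 * w :=
      mul_left_cancel₀ (a := (3 : ℤ) ^ (2 * (e + 1))) (by positivity)
        (by rw [← e5, hw]; ring)
    rcases Int.prime_three.dvd_or_dvd (e6 ▸ g.mul_left 4) with g | g
    · exact γ3 (Int.prime_three.dvd_of_dvd_pow g)
    · have A3' : 3 ∣ A := hγ ▸ (dvd_pow_self 3 (by omega)).mul_right _
      exact i3 (Int.prime_three.dvd_of_dvd_pow (n := 2)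
        (de (g.sub ((dvd_pow A3' two_ne_zero).mul_right r)) (by ring)))
  have dA : D ∣ gL (6 * b) A D - A := ⟨(A - 6 * b) * (A ^ 2 - 1) * D, by rw [gL, pl]; ring⟩
  rw [show 30 * (e + 1) = 15 * (2 * (e + 1)) by ring] at dT
  have dG : ∀ k, pl A D ∣ ch (gL (6 * b) A D) k - ch (6 * b) k := fun k =>
    Dvd.dvd.trans ⟨A - 6 * b, by rw [gL]; ring⟩ (ch_dvd_sub (6 * b) (gL (6 * b) A D) k)
  have dn := dG ((2 * n + 1) * (2 * n' + 1))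
  rw [← ch_comp (6 * b), ← hv, sq4] at dn
  have dj := dG (2 * n' + 1)
  rw [← hv, ← e4] at dj
  obtain ⟨y, z, z0, e1⟩ := e2_complete (G := gL (6 * b) A D) (D := D) oP R0 hw w3 dT s1
    (ch_pos (by omega) _) (e4.trans sq4) dn (dvd_mul_left _ _)
    (de ((dA.trans (ps_dvd_sub _ _ (2 * n' + 1))).add dD) (by ring)) dj
  rw [e4] at e1
  exact ⟨y, z, z0, e1⟩

theorem sCORE5 (hRD : SRD) (hAD : SAD) : SCORE5 := by
  intro c ν f hc hν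
  obtain ⟨p, N, K, K1, hp⟩ := hRD c hc
  have hp' : Rd c p N K := hp
  obtain ⟨E, hE⟩ : ∃ E : ℤ → (Fin 5 → ℤ) → ℤ, ∀ β x, E β x =
      FF p (3 ^ (f + ν + 1)) K (3 ^ ν) β (x 0) (x 1) (x 2) (x 3) (x 4) :=
    ⟨_, fun _ _ => rfl⟩
  refine ⟨E, N, ?_, fun β oβ => ?_⟩
  · simp only [hE]
    exact pf_FF p _ K _ (PF.proj _) (PF.proj _) (PF.proj _) (PF.proj _) (PF.proj _) (PF.proj _)
  have h := par (β := β) hν (by exact_mod_cast oβ.pos) (by exact_mod_cast oβ) K1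
  refine ⟨fun x x0 hx => ?_, fun μ n hN hn hd => ?_⟩
  · rw [hE, FF] at hx
    exact sound hAD hp' h x0 hx
  · obtain ⟨v, g, l, y, z, z0, e⟩ := complete hAD hp' h hN hn hd
    refine ⟨![v, g, l, y, z], z0, ?_⟩
    rw [hE, FF, ← e]
    rfl

end Pool.Agent.MP_fed7c7_lc.S5
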