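import Pool.Agent.MP_fed7c7_lc.S6.Final
import Pool.Agent.MP_fed7c7_lc.S5.Core

set_option autoImplicit false

/-!
Four integer unknowns and one nonnegative unknown: the rows give the reduction.
-/

namespace Pool.Agent.MP_fed7c7_lc.S5

open PowerSeries Finset Pool.Agent.MP_fed7c7_lc.H56 Pool.Agent.MP_fed7c7_lc.H93
open Pool.Agent.MP_fed7c7_lc.S6 hiding E2

open S6.Finx in
theorem red5 (hT : SWT) (hK : SKEY) (hC : SCORE5) (hS : SPS) (hP : SPC) (hL : SLAB) (hGS : SGS)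
    (hGC : SGC) : ∃ (U : ℕ → Prop) (c : ℕ → List (ℤ × (Fin 5 → ℕ))), ¬ComputablePred U ∧
      Primrec c ∧ ∀ a, U a ↔ ∃ x : Fin 5 → ℤ, 0 ≤ x 4 ∧ ev (c a) x = 0 := by
  obtain ⟨U, r, f, c, e, W, hU, hf, hc, he, h⟩ := H19.tab
  obtain ⟨S, hR⟩ := hL r f c e W hf hc he
  have D := Finx.dg S
  have d0 : S6.dv 0 = 16 := by simp [S6.dv]
  have l0 := dv_lt S (j := 0) (by omega)
  have lB : S.ll ^ 2 ≤ 9 ^ (10 * (S.ll ^ 2 + 2)) :=
    (Nat.lt_pow_self (by omega)).le.trans (Nat.pow_le_pow_right (by omega) (by omega))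
  have w1 : 1 ≤ 10 * (S.ll ^ 2 + 2) := by omega
  generalize 10 * (S.ll ^ 2 + 2) = w at D lB w1
  have oB : Odd (9 ^ w) := Odd.pow (by decide)
  obtain ⟨p1, p2⟩ := hP _ _ _ _ _ _ _ D
  choose g g1 g2 using fun f => hK _ f (hT w _ _ _ _ _ w1 D.c1 D.c2.2.1) p1
  choose E N e1 e2 using fun f => hC (g f) (40 * w) f (g1 f) (by omega)
  have hb : Primrec fun a : ℕ => S.ll + (9 ^ w) ^ 2 ^ (a + 1) :=
    Primrec.nat_add.comp (Primrec.const _) (primrec_pow.comp (Primrec.const _)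
      (primrec_pow.comp (Primrec.const 2) Primrec.succ))
  obtain ⟨k, k1, k2⟩ := exists_code' (F := fun u _ (x : Fin 5 → ℤ) => ∏ f ∈ range (2 * w), E f u x)
    (pf_prod (fun f v => E f (v 0) fun i => v i.succ.succ) e1 _) hb hb
  refine ⟨U, k, hU, k1, fun a => ?_⟩
  have ob : Odd (S.ll + (9 ^ w) ^ 2 ^ (a + 1)) := (ll_even S).add_odd oB.pow
  simp only [← k2]
  rw [h a, hR a]
  constructor
  · intro run
    obtain ⟨x, x1, x2, x3, x4⟩ := hGC S _ a ((9 ^ w) ^ 40 + ∑ f ∈ range (2 * w), N f) lB oB run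
    obtain ⟨μ, n, f, n1, f1, n2, n3, n4⟩ := p2 _ x ob x2 (by omega) x3 x4
    obtain ⟨m1, m2⟩ := low (by omega) n2
    have : N f ≤ ∑ f ∈ range (2 * w), N f :=
      single_le_sum (f := N) (fun _ _ => Nat.zero_le _) (mem_range.2 f1)
    obtain ⟨y, y0, hy⟩ := (e2 f _ ob).2 μ n (by omega) n2 ((g2 f n m1 m2).2 ⟨n3, n4⟩)
    exact ⟨y, y0, prod_eq_zero (mem_range.2 f1) hy⟩
  · rintro ⟨y, y0, hy⟩
    obtain ⟨f, f1, hy⟩ := prod_eq_zero_iff.1 hy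
    obtain ⟨μ, n, n1, n2⟩ := (e2 f _ ob).1 y y0 hy
    obtain ⟨m1, m2⟩ := low (by omega) n1
    obtain ⟨n3, n4⟩ := (g2 f n m1 m2).1 n2
    have hm : ∀ x, 2 * x % 9 ^ w = 2 * dv 0 →
        (S.ll + (9 ^ w) ^ 2 ^ (a + 1)) * x ^ 2 % 9 ^ w = S.ll * dv 0 ^ 2 := by
      intro x hx
      have l2 : S.ll * 257 ≤ S.ll ^ 2 := by rw [sq]; exact Nat.mul_le_mul_left _ (by omega)
      rw [d0] at hx ⊢
      have c1 : 2 * x ≡ 2 * 16 [MOD 9 ^ w] := by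
        rw [Nat.ModEq, hx, Nat.mod_eq_of_lt (by omega)]
      have c2 : x ≡ 16 [MOD 9 ^ w] :=
        Nat.ModEq.cancel_left_of_coprime (Nat.coprime_two_right.2 oB) c1
      have c3 : S.ll + (9 ^ w) ^ 2 ^ (a + 1) ≡ S.ll + 0 [MOD 9 ^ w] :=
        Nat.ModEq.add_left _ (Nat.modEq_zero_iff_dvd.2 (dvd_pow_self _ (by positivity)))
      have c4 := c3.mul (c2.pow 2)
      rw [Nat.ModEq, add_zero] at c4
      rw [c4, Nat.mod_eq_of_lt (by omega)]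
    obtain ⟨x, x1, x2⟩ := hS w _ _ _ _ _ n f _ _ μ D ob.pos hm (mem_range.1 f1) n1 n3 n4
    exact hGS S _ a x lB oB x1 x2

end Pool.Agent.MP_fed7c7_lc.S5
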