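import Pool.Agent.MP_fed7c7_lc.S6.All
import Pool.Agent.MP_fed7c7_lc.S5.Final

set_option autoImplicit false

/-!
Four integer unknowns and one nonnegative unknown: all rows together.
-/

namespace Pool.Agent.MP_fed7c7_lc.S5

open Pool.Agent.MP_fed7c7_lc.H56
open Pool.Agent.MP_fed7c7_lc.S6 hiding E2

theorem fiveNonneg : ∃ (U : ℕ → Prop) (c : ℕ → List (ℤ × (Fin 5 → ℕ))),
    ¬ComputablePred U ∧ Primrec c ∧ ∀ a, U a ↔ ∃ x : Fin 5 → ℤ, 0 ≤ x 4 ∧ ev (c a) x = 0 :=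
  red5 (sWT (sWS sUN)) (sKEY sUN (sWU sUN (sWS sUN)) sNB sND) (sCORE5 sRD sAD) (sPS sVL)
    (sPC sUN sVL sVS) H52LAB.sLAB (sGS sCV sDS) (sGC sCV sDS)

end Pool.Agent.MP_fed7c7_lc.S5
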